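import Pool.Agent.X70.Lions

/-! Lions and contamination: many lions, and one lion fewer than vertices. -/

set_option autoImplicit false

namespace Pool.Agent.X151.LionsD

open Finset Pool.Agent.X70.Lions

theorem big {V : Type} [Fintype V] [DecidableEq V] [Nonempty V] (G : SimpleGraph V)
    [DecidableRel G.Adj] (k : ℕ) (hk : Fintype.card V ≤ k) : MonotoneSweepable G k := by
  have hc : Fintype.card V ≤ Fintype.card (Fin k) := by simpa using hk
  obtain ⟨e⟩ := Function.Embedding.nonempty_of_card_le hc
  have hs : Function.Surjective (Function.invFun e) := Function.invFun_surjective e.injective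
  refine ⟨fun _ => Function.invFun e, fun t i => Or.inl rfl, 0, ?_, fun t ht => absurd ht (by omega)⟩
  simp only [cleared]
  exact Finset.image_univ_of_surjective hs

theorem no_edge {n : ℕ} (G : SimpleGraph (Fin (n + 1))) [DecidableRel G.Adj]
    (he : ∀ u v, ¬ G.Adj u v) : ¬ Sweepable G n := by
  rintro ⟨P, hP, T, hT⟩
  have hst : ∀ t i, P t i = P 0 i := by
    intro t
    induction t with
    | zero => intro i; rfl
    | succ t ih =>
      intro i
      rcases hP t i with h | h
      · rw [h, ih i]
      · exact absurd h (he _ _)
  have hcl : ∀ t, cleared G P t ⊆ univ.image (P 0) := by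
    intro t
    induction t with
    | zero => exact subset_refl _
    | succ t ih =>
      intro v hv
      simp only [cleared, step, mem_filter, mem_univ, true_and] at hv
      rcases hv with ⟨i, hi⟩ | ⟨hv, _⟩
      · rw [hst] at hi
        exact mem_image.2 ⟨i, mem_univ _, hi⟩
      · exact ih hv
  have h1 := hcl T
  rw [hT] at h1
  have h2 := Finset.card_le_card h1
  have h3 : (univ.image (P 0)).card ≤ n := by
    refine le_trans Finset.card_image_le ?_
    simp
  simp only [card_univ, Fintype.card_fin] at h2
  omega

theorem pred {n : ℕ} (G : SimpleGraph (Fin (n + 1))) [DecidableRel G.Adj] (hn : 1 ≤ n)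
    (h : Sweepable G n) : MonotoneSweepable G n := by
  classical
  by_cases he : ∀ u v, ¬ G.Adj u v
  · exact absurd h (no_edge G he)
  push Not at he
  obtain ⟨u, v, huv⟩ := he
  have hne : u ≠ v := huv.ne
  obtain ⟨i0, hi0⟩ := Fin.exists_succAbove_eq hne
  let f : Fin n → Fin (n + 1) := fun i => v.succAbove i
  let g : Fin n → Fin (n + 1) := Function.update f i0 v
  have hf : ∀ w, w ≠ v → ∃ i, f i = w := fun w hw => Fin.exists_succAbove_eq hw
  refine ⟨fun t => if t = 0 then f else g, ?_, 1, ?_, ?_⟩
  · intro t i
    rcases Nat.eq_zero_or_pos t with rfl | ht
    · by_cases hi : i = i0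
      · subst hi
        right
        simp only [if_true, zero_add, one_ne_zero, if_false, g, Function.update_self]
        change G.Adj (v.succAbove i) v
        rw [hi0]
        exact huv
      · left
        simp only [if_true, zero_add, one_ne_zero, if_false, g]
        rw [Function.update_of_ne hi]
    · left
      change (if t + 1 = 0 then f else g) i = (if t = 0 then f else g) i
      rw [if_neg (by omega : ¬ (t + 1 = 0)), if_neg (by omega : ¬ t = 0)]
  · ext w
    simp only [cleared, step, mem_filter, mem_univ, true_and, if_true, zero_add, one_ne_zero,
      if_false, iff_true]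
    by_cases hw : w = v
    · left
      exact ⟨i0, by simp [g, hw]⟩
    · by_cases hwu : w = u
      · right
        refine ⟨?_, ?_⟩
        · obtain ⟨i, hi⟩ := hf w hw
          exact mem_image.2 ⟨i, mem_univ _, hi⟩
        · intro x _ hx
          have hxv : x = v := by
            by_contra hxv
            obtain ⟨i, hi⟩ := hf x hxv
            exact hx (mem_image.2 ⟨i, mem_univ _, hi⟩)
          refine ⟨i0, ?_, ?_⟩
          · rw [hwu]; exact hi0
          · simp [g, hxv]
      · left
        obtain ⟨i, hi⟩ := hf w hw
        have hii : i ≠ i0 := by
          rintro rfl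
          exact hwu (hi.symm.trans hi0)
        exact ⟨i, by simp only [g]; rw [Function.update_of_ne hii]; exact hi⟩
  · intro t ht
    have ht0 : t = 0 := by omega
    subst ht0
    have hall : cleared G (fun t => if t = 0 then f else g) (0 + 1) = univ := by
      ext w
      simp only [cleared, step, mem_filter, mem_univ, true_and, if_true, zero_add, one_ne_zero,
        if_false, iff_true]
      by_cases hw : w = v
      · left
        exact ⟨i0, by simp [g, hw]⟩
      · by_cases hwu : w = u
        · right
          refine ⟨?_, ?_⟩
          · obtain ⟨i, hi⟩ := hf w hw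
            exact mem_image.2 ⟨i, mem_univ _, hi⟩
          · intro x _ hx
            have hxv : x = v := by
              by_contra hxv
              obtain ⟨i, hi⟩ := hf x hxv
              exact hx (mem_image.2 ⟨i, mem_univ _, hi⟩)
            refine ⟨i0, ?_, ?_⟩
            · rw [hwu]; exact hi0
            · simp [g, hxv]
        · left
          obtain ⟨i, hi⟩ := hf w hw
          have hii : i ≠ i0 := by
            rintro rfl
            exact hwu (hi.symm.trans hi0)
          exact ⟨i, by simp only [g]; rw [Function.update_of_ne hii]; exact hi⟩
    rw [hall]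
    exact subset_univ _

end Pool.Agent.X151.LionsD
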